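import Pool.Agent.Helper48_LPY.Stmts

/-!
# LPY DEV: deviations of the numbers of flexible nodes and of picks
-/

set_option autoImplicit false

namespace Pool.Agent.LPY.H56

open Pool.Agent.LAX

/-- Markov. -/
theorem markov {Ω : Type} [Fintype Ω] (A : Set Ω) (g : Ω → ℝ) (m x C : ℝ)
    (hA : ∀ ω ∈ A, m + x ≤ g ω) (hs : ∑ ω, Real.exp (g ω) ≤ C * Real.exp m) :
    (A.ncard : ℝ) ≤ Real.exp (-x) * C := by
  classical
  have h1 : (A.ncard : ℝ) * Real.exp (m + x) ≤ ∑ ω, Real.exp (g ω) := by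
    have hc : A.ncard = (Finset.univ.filter fun ω => ω ∈ A).card := by
      rw [← Set.ncard_coe_finset]
      congr 1
      ext ω
      simp
    rw [hc, ← nsmul_eq_mul, ← Finset.sum_const]
    calc ∑ _ω ∈ Finset.univ.filter (fun ω => ω ∈ A), Real.exp (m + x)
        ≤ ∑ ω ∈ Finset.univ.filter (fun ω => ω ∈ A), Real.exp (g ω) := by
          apply Finset.sum_le_sum
          intro ω hω
          exact Real.exp_le_exp.mpr (hA ω (Finset.mem_filter.1 hω).2)
      _ ≤ ∑ ω, Real.exp (g ω) :=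
          Finset.sum_le_sum_of_subset_of_nonneg (Finset.filter_subset _ _)
            (fun _ _ _ => (Real.exp_pos _).le)
  have h2 := h1.trans hs
  rw [Real.exp_add] at h2
  have h3 : (A.ncard : ℝ) * Real.exp x ≤ C := by
    have hm := Real.exp_pos m
    have : (A.ncard : ℝ) * Real.exp x * Real.exp m ≤ C * Real.exp m := by
      calc (A.ncard : ℝ) * Real.exp x * Real.exp m =
          (A.ncard : ℝ) * (Real.exp m * Real.exp x) := by ring
        _ ≤ C * Real.exp m := h2
    exact le_of_mul_le_mul_right this hm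
  calc (A.ncard : ℝ) = Real.exp (-x) * ((A.ncard : ℝ) * Real.exp x) := by
        rw [mul_comm (A.ncard : ℝ), ← mul_assoc, ← Real.exp_add]
        simp
    _ ≤ Real.exp (-x) * C := mul_le_mul_of_nonneg_left h3 (Real.exp_pos _).le

theorem th_pos : 0 < th := by
  unfold th
  positivity

theorem sum_ind {ι : Type} [Fintype ι] (S T : Set ι) :
    ∑ p, T.indicator (S.indicator fun _ => (1 : ℝ)) p = ((S ∩ T).ncard : ℝ) := by
  classical
  have hc : (S ∩ T).ncard = (Finset.univ.filter fun p => p ∈ S ∩ T).card := by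
    rw [← Set.ncard_coe_finset]
    congr 1
    ext ω
    simp
  rw [hc, Finset.card_filter]
  push_cast
  apply Finset.sum_congr rfl
  intro p _
  by_cases h1 : p ∈ S <;> by_cases h2 : p ∈ T <;> simp [h1, h2]

theorem sum_ind1 {ι : Type} [Fintype ι] (S : Set ι) :
    ∑ p, S.indicator (fun _ => (1 : ℝ)) p = (S.ncard : ℝ) := by
  have := sum_ind S Set.univ
  simpa using this

theorem dev (hL : ConlStmt) (hP : ConpStmt) : DevStmt := by
  intro V _ _ σ a B S x ha hc hx
  refine ⟨?_, ?_, ?_⟩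
  · have h := hL V σ a B (S.indicator fun _ => (1 : ℝ)) ha hc (by
      intro p
      by_cases hp : p ∈ S <;> simp [hp])
    simp only [sum_ind, sum_ind1] at h
    refine markov _ (fun ω => -(th * ((S ∩ FL B ω).ncard : ℝ)))
      (-(th * (19 / 20 * rr a * S.ncard))) (th * x) _ ?_ h
    intro ω hω
    have hω' : ((S ∩ FL B ω).ncard : ℝ) + x < 19 / 20 * rr a * S.ncard := hω
    have := mul_le_mul_of_nonneg_left hω'.le th_pos.le
    linarith
  · have h := (hP V σ a B S ha hc).1
    refine markov _ (fun ω => th * ((S ∩ (FL B ω ∪ ET B ω)).ncard : ℝ))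
      (th * (5 / 4 * rr a * S.ncard)) (th * x) _ ?_ h
    intro ω hω
    have hω' : 5 / 4 * rr a * S.ncard + x < ((S ∩ (FL B ω ∪ ET B ω)).ncard : ℝ) := hω
    have := mul_le_mul_of_nonneg_left hω'.le th_pos.le
    linarith
  · have h := (hP V σ a B S ha hc).2
    refine markov _ (fun ω => th * ((S ∩ (FL B ω ∪ EH B ω)).ncard : ℝ))
      (th * (5 / 4 * rr a * S.ncard)) (th * x) _ ?_ h
    intro ω hω
    have hω' : 5 / 4 * rr a * S.ncard + x < ((S ∩ (FL B ω ∪ EH B ω)).ncard : ℝ) := hω
    have := mul_le_mul_of_nonneg_left hω'.le th_pos.le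
    linarith

end Pool.Agent.LPY.H56
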