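import Pool.Agent.Helper48_LPY.Stmts

/-!
# LPY ITE: all steps
-/

set_option autoImplicit false

namespace Pool.Agent.LPY.H56

open Pool.Agent.LAX

theorem Stt.mono {V : Type} {E : Set (V × V)} {q b W W' : ℕ} {K : ℕ → Set (V × V)}
    (h : Stt E q b W K) (hW : W ≤ W') : Stt E q b W' K :=
  { sub := h.sub, pi := h.pi, cw := h.cw, disj := h.disj,
    mo := fun v => (h.mo v).trans hW, mi := fun v => (h.mi v).trans hW }

theorem par_ineq {k l s I f : ℕ} (hP : Par k l s I f) : f + 2 * l + 48 < I := by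
  have h : 2 ^ (s + f + 52 + 2 * l) < 2 ^ (s + I + 4) := lt_of_le_of_lt hP.p4 hP.p3'
  have := (Nat.pow_lt_pow_iff_right (by norm_num : 1 < 2)).1 h
  omega

theorem par_W {k l s I f i : ℕ} (hP : Par k l s I f) (hi : i ≤ f + 1) :
    2 ^ s + i * 2 ^ (2 * l + 64) ≤ 2 ^ (s + 1) := by
  have h1 : i ≤ 2 ^ l := hi.trans hP.i1
  have h2 : i * 2 ^ (2 * l + 64) ≤ 2 ^ l * 2 ^ (2 * l + 64) := Nat.mul_le_mul_right _ h1
  have h3 : 2 ^ l * 2 ^ (2 * l + 64) = 2 ^ s := by
    rw [← pow_add, hP.p2]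
    congr 1
    ring
  rw [h3] at h2
  calc 2 ^ s + i * 2 ^ (2 * l + 64) ≤ 2 ^ s + 2 ^ s := Nat.add_le_add_left h2 _
    _ = 2 ^ (s + 1) := by ring

theorem par_numS {k l s I f i : ℕ} (hP : Par k l s I f) (hi : i ≤ f) :
    NumS k l (s + i) (f - i) (2 ^ (s + I)) (2 ^ s + i * 2 ^ (2 * l + 64)) where
  p1 := hP.p1
  a1 := by have := hP.p2; omega
  h1 := by
    have : f - i + (s + i) + 52 + 2 * l = s + f + 52 + 2 * l := by omega
    rw [this]; exact hP.p4
  h2 := by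
    have : f - i + (s + i) + 53 + 2 * l = s + f + 53 + 2 * l := by omega
    rw [this]; exact hP.p4'
  q1 := by
    apply pow_dvd_pow
    have := par_ineq hP
    omega
  q2 := by
    have : 8 * 2 ^ (s + I) = 2 ^ (s + I + 3) := by ring
    rw [this]; exact hP.p3
  q3 := Nat.one_le_two_pow
  w1 := by
    have h := par_W hP (Nat.succ_le_succ hi)
    have h' : 2 ^ s + i * 2 ^ (2 * l + 64) + 2 ^ (2 * l + 64) =
        2 ^ s + (i + 1) * 2 ^ (2 * l + 64) := by ring
    rw [h']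
    exact h.trans (Nat.pow_le_pow_right (by norm_num) (by omega))

theorem ite (h1 : P1Stmt) (hC : CpyStmt) : IteStmt := by
  intro k l s I f hP V _ E hE
  obtain ⟨K0, hK0⟩ := h1 k l s I f hP V E hE
  have key : ∀ i, i ≤ f + 1 → ∃ K : ℕ → Set (V × V),
      Stt E (2 ^ (s + I)) (2 ^ (s + i)) (2 ^ s + i * 2 ^ (2 * l + 64)) K := by
    intro i
    induction i with
    | zero =>
      intro _
      exact ⟨K0, by simpa using hK0⟩
    | succ i ih =>
      intro hi
      obtain ⟨K, hK⟩ := ih (by omega)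
      obtain ⟨K', hK'⟩ := hC V E k l (s + i) (f - i) (2 ^ (s + I))
        (2 ^ s + i * 2 ^ (2 * l + 64)) K (par_numS hP (by omega)) hE hK
      refine ⟨K', ?_⟩
      have e1 : 2 ^ s + i * 2 ^ (2 * l + 64) + 2 ^ (2 * l + 64) =
        2 ^ s + (i + 1) * 2 ^ (2 * l + 64) := by ring
      rw [e1] at hK'
      exact hK'
  obtain ⟨K, hK⟩ := key (f + 1) le_rfl
  exact ⟨K, Stt.mono hK (par_W hP le_rfl)⟩

end Pool.Agent.LPY.H56
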